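import Pool.Agent.helper76.BQ.MSpec

/-!
# BQ, part M, module MBr: the two sets of definitions agree
-/

set_option autoImplicit false

open scoped BigOperators ComplexConjugate Matrix Topology

namespace BQ

theorem MBr_lift (z : Fin 2 → ℂ) : Pool.Agent.helper76.BQ.lift z = zt z := rfl

theorem MBr_mob (g : Matrix (Fin 3) (Fin 3) ℂ) : Pool.Agent.helper76.BQ.mob g = mob g := by
  funext z i
  fin_cases i <;> rfl

theorem MBr_evm {F : Type} [Field F] (kap : F) (v : F →+* ℝ)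
    (A C : Matrix (Fin 3) (Fin 3) F) :
    Pool.Agent.helper76.BQ.evm kap v A C = ev kap v A C := by
  ext i j
  simp only [Pool.Agent.helper76.BQ.evm, ev, Matrix.sub_apply, Matrix.smul_apply, Matrix.map_apply,
    Matrix.of_apply, smul_eq_mul]

theorem MBr_card {F : Type} [Field F] [NumberField F] (h : ∀ (f : F →+* ℂ) (x : F), (f x).im = 0) :
    Fintype.card (F →+* ℝ) = Module.finrank ℚ F := by
  rw [← NumberField.Embeddings.card F ℂ]
  apply Fintype.card_of_bijective (f := fun v : F →+* ℝ => Complex.ofRealHom.comp v)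
  constructor
  · intro v w hvw
    ext x
    have := RingHom.congr_fun hvw x
    simp only [RingHom.comp_apply, Complex.ofRealHom_eq_coe] at this
    exact_mod_cast this
  · intro f
    refine ⟨{ toFun := fun x => (f x).re
              map_one' := by simp
              map_zero' := by simp
              map_add' := by intro x y; simp
              map_mul' := by intro x y; simp [h f x] }, ?_⟩
    ext x
    apply Complex.ext
    · simp
    · simp [h f x]

theorem MBa : MBa_stmt := by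
  refine ⟨MBr_mob, fun t => rfl, fun F _ _ kap v A C => MBr_evm kap v A C, ?_⟩
  intro F _ _ kap d v0 h
  exact ⟨MBr_card h.real, h.kapPos, h.dPos, h.dNeg⟩

theorem MBs : MBs_stmt := by
  intro F _ _ φ
  have hx : ∀ x : Fin 1 → Fin 3 → F, x = fun _ => x 0 := fun x => by
    funext l
    rw [Subsingleton.elim l 0]
  constructor
  · rintro ⟨m, hm, h1, h2⟩
    refine ⟨m, hm, fun x hx i => h1 _ hx 0 i, fun x y hy => ?_⟩
    exact h2 (fun _ => x) (fun _ => y) (fun _ i => hy i)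
  · rintro ⟨m, hm, h1, h2⟩
    refine ⟨m, hm, fun x hx' l i => ?_, fun x y hy => ?_⟩
    · rw [hx x] at hx'
      rw [Subsingleton.elim l 0]
      exact h1 _ hx' i
    · have := h2 (x 0) (y 0) (fun i => hy 0 i)
      rw [hx x, hx y]
      exact this

theorem MBr_Nz {D : ℝ} {z : Fin 2 → ℂ} (hz : z ∈ Ball D) : Nz D z ≠ 0 := by
  intro h
  have h1 : (Nz D z).re = 0 := by rw [h]; rfl
  have h2 : (z 0 ^ 2).re ≤ ‖z 0‖ ^ 2 := by
    rw [← norm_pow]
    exact Complex.re_le_norm _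
  have h3 : (z 1 ^ 2).re ≤ ‖z 1‖ ^ 2 := by
    rw [← norm_pow]
    exact Complex.re_le_norm _
  have h4 : ‖z 0‖ ^ 2 + ‖z 1‖ ^ 2 < D := hz
  simp only [Nz, Complex.sub_re, Complex.ofReal_re] at h1
  linarith

theorem MBr_sq (w : ℂ) : (w ^ (1 / 2 : ℂ)) ^ 2 = w := by
  have := Complex.cpow_nat_inv_pow w (n := 2) (by norm_num)
  rw [one_div]
  exact_mod_cast this

theorem MBr_bz {F : Type} [Field F] [NumberField F] (d : F) (v0 : F →+* ℝ) (x : Fin 3 → F)
    (z : Fin 2 → ℂ) :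
    Pool.Agent.helper76.BQ.bil (v0 d : ℝ) (Pool.Agent.helper76.BQ.pl v0 x)
      (Pool.Agent.helper76.BQ.lift z) = bz d v0 x z := by
  simp [Pool.Agent.helper76.BQ.bil, Pool.Agent.helper76.BQ.pl, Pool.Agent.helper76.BQ.lift, bz]

theorem MBr_bil {F : Type} [Field F] [NumberField F] (d : F) (v : F →+* ℝ) (x : Fin 3 → F) :
    Pool.Agent.helper76.BQ.bil (v d : ℝ) (Pool.Agent.helper76.BQ.pl v x)
      (Pool.Agent.helper76.BQ.pl v x) = ((v (bil d x x) : ℝ) : ℂ) := by
  simp only [Pool.Agent.helper76.BQ.bil, Pool.Agent.helper76.BQ.pl, bil, map_add, map_sub, map_mul]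
  push_cast
  ring

theorem MBr_dss {F : Type} [Field F] [NumberField F] (d : F) (v0 : F →+* ℝ) (x : Fin 3 → F)
    (z : Fin 2 → ℂ) (hz : z ∈ Ball (v0 d)) (i : Fin 2) :
    Pool.Agent.helper76.BQ.dss (v0 d) (Pool.Agent.helper76.BQ.pl v0 x) z i = dsz d v0 x z i := by
  have hN := MBr_Nz hz
  have hnn : Pool.Agent.helper76.BQ.nn (v0 d) z = Nz (v0 d) z := rfl
  have hN2 : Nz (v0 d) z ^ (1 / 2 : ℂ) ≠ 0 := by
    intro h
    have := MBr_sq (Nz (v0 d) z)
    rw [h] at this
    exact hN (by rw [← this]; norm_num)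
  unfold Pool.Agent.helper76.BQ.dss dsz
  rw [MBr_bz, hnn]
  have h1 : Pool.Agent.helper76.BQ.pl v0 x i.castSucc = ((v0 (x i.castSucc) : ℝ) : ℂ) := rfl
  rw [h1, div_eq_div_iff (mul_ne_zero hN hN2) hN2]
  field_simp

theorem MBr_qz {F : Type} [Field F] [NumberField F] (d : F) (v0 : F →+* ℝ) (x : Fin 3 → F)
    (z : Fin 2 → ℂ) :
    Pool.Agent.helper76.BQ.qz (v0 d) (Pool.Agent.helper76.BQ.pl v0 x)
      (Pool.Agent.helper76.BQ.pl v0 x) z = qz d v0 x z := by
  have hnn : Pool.Agent.helper76.BQ.nn (v0 d) z = Nz (v0 d) z := rfl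
  unfold Pool.Agent.helper76.BQ.qz qz Pool.Agent.helper76.BQ.ss
  rw [MBr_bz, MBr_bil, hnn, mul_assoc, ← pow_two, div_pow, MBr_sq, mul_div_assoc]

theorem MBr_coef {F : Type} [Field F] [NumberField F] (kap del : F) (v : F →+* ℝ)
    (hk : 0 < v kap) : (Real.sqrt (v kap))⁻¹ * |v (kap * del)| = yv kap del v := by
  have h1 : Real.sqrt (v kap) ≠ 0 := (Real.sqrt_pos.2 hk).ne'
  rw [map_mul, abs_mul, abs_of_pos hk, yv]
  nth_rewrite 2 [← Real.mul_self_sqrt hk.le]
  field_simp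

theorem MBr_expo {F : Type} [Field F] [NumberField F] (kap d del : F) (v0 : F →+* ℝ)
    (hk : ∀ v : F →+* ℝ, 0 < v kap) (x : Fin 3 → F) (z : Fin 2 → ℂ) :
    Complex.exp (-(Real.pi : ℂ) * Pool.Agent.helper76.BQ.expo kap d v0
      (fun v => Matrix.diagonal fun _ => |v (kap * del)|) (fun _ : Fin 1 => x) z) =
      gauss kap d del v0 x z := by
  classical
  unfold gauss Pool.Agent.helper76.BQ.expo
  congr 1
  have h1 : ∀ v : F →+* ℝ, (((Real.sqrt (v kap))⁻¹ : ℝ) : ℂ) * ∑ l : Fin 1, ∑ l' : Fin 1,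
      ((Matrix.diagonal (fun _ : Fin 1 => |v (kap * del)|) l l' : ℝ) : ℂ) *
        Pool.Agent.helper76.BQ.qv d v0 v x x z =
      (yv kap del v : ℂ) * (if v = v0 then qz d v0 x z else ((v (bil d x x) : ℝ) : ℂ)) := by
    intro v
    rw [Fin.sum_univ_one, Fin.sum_univ_one, Matrix.diagonal_apply_eq, ← MBr_coef kap del v (hk v)]
    push_cast
    rw [mul_assoc]
    congr 2
    unfold Pool.Agent.helper76.BQ.qv
    by_cases h : v = v0
    · subst h
      rw [if_pos rfl, if_pos rfl, MBr_qz]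
    · rw [if_neg h, if_neg h, MBr_bil]
  rw [Finset.sum_congr rfl fun v _ => h1 v, ← Finset.add_sum_erase _ _ (Finset.mem_univ v0),
    if_pos rfl]
  have h2 : ∑ v ∈ Finset.univ.erase v0, (yv kap del v : ℂ) *
      (if v = v0 then qz d v0 x z else ((v (bil d x x) : ℝ) : ℂ)) =
      ((∑ v ∈ Finset.univ.erase v0, yv kap del v * v (bil d x x) : ℝ) : ℂ) := by
    push_cast
    refine Finset.sum_congr rfl fun v hv => ?_
    rw [if_neg (Finset.ne_of_mem_erase hv)]
  rw [h2]
  ring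

theorem MBc : MBc_stmt := by
  intro F _ _ kap d del v0 h phi z hz i
  unfold theta1 Pool.Agent.helper76.BQ.th1
  rw [← (Equiv.funUnique (Fin 1) (Fin 3 → F)).symm.tsum_eq]
  refine tsum_congr fun x => ?_
  have hx : (Equiv.funUnique (Fin 1) (Fin 3 → F)).symm x = fun _ => x := rfl
  rw [hx, MBr_expo kap d del v0 h.kapPos x z, MBr_dss d v0 x z hz i]

end BQ
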